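import Pool.Agent.P8H14.GH.Stm2

set_option autoImplicit false

/-! Project GH: the theorem from the packages DRM and MSC. -/

open Finset Filter Topology

namespace Pool.Agent.P8H14.GH

open Pool.Agent.TH823.PS
open Pool.Agent.P8H14.QP (sav sav_pos sav_mono sav_large log_ev)
open Pool.Agent.P8H14.QP.Len (sav_mul sav_one_le sav_log)
open Pool.Agent.R460.GS (GG ZZ WinL)
open Pool.Agent.R460.GR (BadP)

lemma most_imp {ε : ℝ} {P P' : ℕ → Prop} (h : Most ε P) (hPP : ∀ N, P N → P' N) : Most ε P' := by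
  classical
  intro R₀
  obtain ⟨R, hR, h1⟩ := h R₀
  refine ⟨R, hR, le_trans ?_ h1⟩
  refine sum_le_sum_of_subset_of_nonneg ?_ fun _ _ _ => by positivity
  intro N hN
  rw [mem_filter] at hN ⊢
  exact ⟨hN.1, fun h2 => hN.2 (hPP N h2)⟩

/-- the class of `a` modulo `q` has few exceptions up to `x` -/
def ClassOK (Q : ℕ → Prop) (A : ℕ) (x : ℝ) (q : ℕ) (a : ℤ) : Prop :=
  ({n : ℕ | 0 < n ∧ (n : ℝ) ≤ x ∧ 2 ∣ n ∧ (n : ℤ) ≡ a [ZMOD q] ∧ ¬ Q n}).Finite ∧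
    (({n : ℕ | 0 < n ∧ (n : ℝ) ≤ x ∧ 2 ∣ n ∧ (n : ℤ) ≡ a [ZMOD q] ∧ ¬ Q n}.ncard : ℕ) : ℝ) ≤
      x / (q * Real.log x ^ A)

/-- the theorem: the exceptional divisors are larger than `sav (2 c') N` -/
theorem core (hD : S_DRM) (hM : S_MSC) (Q : ℕ → Prop) (W : ℕ)
    (hQ : ∃ n₀ : ℕ, ∀ n : ℕ, n₀ ≤ n → 2 ∣ n → WinL W n → Q n) (ρ ε : ℝ) (hρ : 0 < ρ) (hε : 0 < ε) (A : ℕ) :
    ∃ (c : ℕ) (c' : ℝ), 0 < c' ∧ ∀ N₁ : ℕ, Most ε (fun N => N₁ ≤ N ∧ ∀ x : ℝ, (N : ℝ) ≤ x → x < N + 1 →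
      ∃ D : Finset ℕ, (D.card : ℝ) ≤ Real.log x ^ c ∧ (∀ d ∈ D, sav (2 * c') N < (d : ℝ)) ∧
        ∀ q : ℕ, 1 ≤ q → (q : ℝ) ≤ x ^ (7 / 10 - ρ) → (∀ d ∈ D, ¬ d ∣ q) → ∀ a : ℤ, ClassOK Q A x q a) := by
  obtain ⟨c, U, C, ρ', hρ', h⟩ := hD Q W hQ ρ hρ A
  obtain ⟨x₀, hx₀⟩ := h 0
  obtain ⟨c2, hc2, hmost⟩ := hM U ρ' ε hρ' hε
  obtain ⟨N₂, hN₂16, hN₂⟩ := sav_log (c := c2 / 2) (by positivity) C (2 ^ C)
  refine ⟨c, c2 / 4, by positivity, fun N₁ => ?_⟩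
  refine most_imp (hmost (max (max N₁ N₂) (⌈x₀⌉₊ + 16))) fun N hN => ?_
  obtain ⟨hN1, hbad⟩ := hN
  have hN1' : N₁ ≤ N := (le_max_left _ _).trans ((le_max_left _ _).trans hN1)
  have hN2' : N₂ ≤ N := (le_max_right _ _).trans ((le_max_left _ _).trans hN1)
  have hN3' : ⌈x₀⌉₊ + 16 ≤ N := (le_max_right _ _).trans hN1
  have hN16 : 16 ≤ N := by omega
  refine ⟨hN1', fun x hx1 hx2 => ?_⟩
  have hxx : x₀ ≤ x := by
    have h1 : (⌈x₀⌉₊ : ℝ) ≤ N := by exact_mod_cast (by omega : ⌈x₀⌉₊ ≤ N)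
    exact (Nat.le_ceil x₀).trans (h1.trans hx1)
  obtain ⟨D, hD1, hD2, hD3⟩ := hx₀ x hxx
  have hx0 : (0 : ℝ) ≤ x := le_trans (Nat.cast_nonneg _) hx1
  have hfl : ⌊x⌋₊ = N := by
    rw [Nat.floor_eq_iff hx0]
    exact ⟨hx1, hx2⟩
  have hNr : (16 : ℝ) ≤ N := by exact_mod_cast hN16
  refine ⟨D, hD1, fun d hd => ?_, fun q hq hqx hqD a => hD3 q hq hqx hqD a⟩
  obtain ⟨-, e, ψ, hψ, he⟩ := hD2 d hd
  rw [hfl] at hψ
  have h1 := hbad e ψ hψ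
  have hlogN : 1 ≤ Real.log N := by
    rw [Real.le_log_iff_exp_le (by linarith)]
    have := Real.exp_one_lt_d9
    linarith
  have hlog : Real.log x ≤ 2 * Real.log N := by
    have h2 : x ≤ (N : ℝ) ^ 2 := by nlinarith
    calc Real.log x ≤ Real.log ((N : ℝ) ^ 2) := Real.log_le_log (by linarith) h2
      _ = 2 * Real.log N := by rw [Real.log_pow]; norm_num
  have hlog0 : 0 ≤ Real.log x := Real.log_nonneg (by linarith)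
  have h3 : Real.log x ^ C ≤ sav (c2 / 2) N := by
    calc Real.log x ^ C ≤ (2 * Real.log N) ^ C := pow_le_pow_left₀ hlog0 hlog _
      _ = 2 ^ C * Real.log N ^ C := mul_pow _ _ _
      _ ≤ _ := hN₂ N hN2'
  have h4 : sav (c2 / 2) N * sav (c2 / 2) N < (d : ℝ) * sav (c2 / 2) N := by
    rw [sav_mul, add_halves]
    exact lt_of_lt_of_le h1 (he.trans (mul_le_mul_of_nonneg_left h3 (Nat.cast_nonneg _)))
  have h5 := lt_of_mul_lt_mul_right h4 (sav_pos _ _).le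
  rw [show 2 * (c2 / 4) = c2 / 2 by ring]
  exact h5

end Pool.Agent.P8H14.GH
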