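import Pool.Agent.R460.GS.Stm
import Pool.Agent.P8H14.PL.M8

/-!
# Project GH (helper14): Goldbach lower bounds on the multiples of EVERY modulus `q ≤ y = x ^ (c / log log x)`, and of all
the moduli `q ≤ x ^ (7/10 - ρ)` which are not divisible by one of at most `log ^ c x` integers, all larger than `y`, at
most scales `x` (row MP_92f640_nt).

The starting theorem (`R460.GR`, all scales) has exceptional divisors larger than `log ^ B x`. They are the conductors
of the bad primitive characters: `BadP N U ρ e ψ` says that `ψ` is primitive modulo `1 < e ≤ N ^ (7/10 - ρ)` and some sum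
of `GG N n * ψ n` over `n ≤ y' ≤ N` is larger than `N / log ^ U N` (`GG N n = log N` if `n` has no prime factor up to
`ZZ N = ⌊N ^ (3/10)⌋`, and `0` otherwise). At most scales the zero free region `Reg c C (12 l)` holds (all characters of
moduli up to `exp (12 l)`), with `l` of size `log N / log log N`; it excludes bad characters of conductor up to `exp l`.

Packages: THC, ABL, RGC, DRM (independent), MSC (may assume THC, ABL, RGC).
-/

set_option autoImplicit false

open Finset Filter Topology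

namespace Pool.Agent.P8H14.GH

open Pool.Agent.TH823.PS
open Pool.Agent.P8H13.PK
open Pool.Agent.P8H13.GK
open Pool.Agent.P8H14.PL
open Pool.Agent.P8H14.QP (sav)
open Pool.Agent.R460.GS (GG ZZ)

/-- the sum of a character over the primes up to `T` -/
noncomputable def pc (d : ℕ) (ψ : DirichletCharacter ℂ d) (T : ℕ) : ℂ :=
  ∑ p ∈ (Icc 1 T).filter Nat.Prime, ψ (p : ZMod d)

/-- **THC** (120 lines). Primes with the weight `th p = log p` and a primitive character of a small conductor at a good scale.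
Proof. Apply `Pool.Agent.P8H13.GK.AD (2 * A + 4)` exactly as in the proof of `Pool.Agent.P8H14.PL.majA` (file `PL/L1.lean`: all the
side conditions are checked there for `R = 12 l`, `lam = 6 l`, `h = exp (-6 l)`, `β = log T`, `W = 1`, `H = HH l T =
⌊T exp (-4 l)⌋`, `X = T`; copy them; here nothing about `Ql` is needed), now with `F = ⌊exp l⌋ ≥ d`. Only the term `q = d`
is kept: `∑ a ∈ rr d, ∑ x ∈ Ico (2 H) T, ‖SS d a (x+1-H) (x+1) - μ(d)/φ(d) H‖² ≤ H² T / β ^ (2 A + 2)` say (the last term of `AD` is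
at most `exp(2 l) T (88 β exp (-6 l) T)² `, while `H² T ≥ T³ exp (-8 l) / 4`, and `β ^ K ≤ exp (l / 100)` for large `l` as
`β ≤ 36 l²`, cf. `pow_exp` in `PL/L5.lean`). For a primitive `ψ` modulo `d > 1` and all `n`:
`(gaussSum ψ⁻¹ e) ψ(n) = ∑_{a mod d} ψ⁻¹(a) e(a n / d)`, `|gaussSum|² = d`, and `∑_a ψ⁻¹(a) = 0`. So
`|∑_{n in window} th n ψ n| ≤ d^(-1/2) ∑_{a in rr d} |SS - μ/φ H| ≤ (∑_{a in rr d} |..|²)^(1/2)` by Cauchy. Sum over `x` with Cauchy:
`∑_x |∑_{n ∈ [x+1-H, x+1)} th n ψ n| ≤ √T · √(H² T / β^(2A+2)) = H T / β^(A+1)`. Every `n ∈ [2H, T - H)` lies in exactly `H` of the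
windows, every other `n < T` in at most `H`, so `H |∑_{n<T} th n ψ n| ≤ H T / β^(A+1) + 4 H · H log T`, and
`H ≤ T exp (-4 l)`. -/
def S_THC : Prop := ∀ (A : ℕ) (c C : ℝ), 0 < c → c ≤ 1 / 8 → 0 < C → ∃ c1 l0 : ℝ, 0 < c1 ∧ 1000 ≤ l0 ∧
  ∀ l : ℝ, l0 ≤ l → Reg c C (12 * l) → ∀ T : ℕ, 100 * l ≤ Real.log T → Real.log T ≤ 36 * l ^ 2 →
    l * Real.log (Real.log T) ≤ c1 * Real.log T →
    ∀ (d : ℕ) (ψ : DirichletCharacter ℂ d), 1 < d → (d : ℝ) ≤ Real.exp l → ψ.IsPrimitive →
      ‖∑ n ∈ range T, ((th n : ℝ) : ℂ) * ψ (n : ZMod d)‖ ≤ T / Real.log T ^ A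

/-- **ABL** (60 lines). Partial summation: from the weight `log p` to the weight `1`. With `S(T') = ∑_{n < T'} th n ψ n`:
`∑_{p ≤ T} ψ p = S(T+1)/log T + ∑_{2 ≤ n < T} S(n+1) (1/log n - 1/log (n+1))`; for `n + 1 ≤ T / log ^ (A+1) T` use
`|S(n+1)| ≤ (n+1) log (n+1)` (crude is enough: the part of the sum over the primes up to `T / log ^ (A+1) T` has at most that many
terms, so split the sum there). (Any other arrangement is fine.) -/
def S_ABL : Prop := ∀ A : ℕ, ∃ T₀ : ℕ, ∀ T : ℕ, T₀ ≤ T → ∀ (d : ℕ) (ψ : DirichletCharacter ℂ d),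
  (∀ T' : ℕ, (T : ℝ) / Real.log T ^ (A + 2) ≤ T' → T' ≤ T + 1 →
    ‖∑ n ∈ range T', ((th n : ℝ) : ℂ) * ψ (n : ZMod d)‖ ≤ T' / Real.log T' ^ (A + 2)) →
  ‖pc d ψ T‖ ≤ T / Real.log T ^ A

/-- **RGC** (100 lines). The integers without prime factors up to `ZZ N`. Proof. `GG N 1 = log N`. An integer `n ≥ 2` without
prime factors up to `ZZ N` is in exactly one way `n = m p` with `p` prime, `m ≥ 1` without prime factors up to `ZZ N`, and `p`
larger than `ZZ N` and at least the largest prime factor of `m` (`p` is the largest prime factor of `n`). For fixed `m ≤ y` the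
primes `p` are those of `(a, b]` with `a = max (ZZ N) (P⁺(m) - 1)`, `b = y / m`, and `|pc b - pc a| ≤ E a + E b ≤ 2 E y / m` if
`a < b` (both are between `ZZ N` and `N`), while there are none if `b ≤ a`. Sum over `m ≤ y`: `∑ 1 / m ≤ 1 + log y`. -/
def S_RGC : Prop := ∀ (N : ℕ) (E : ℝ) (d : ℕ) (ψ : DirichletCharacter ℂ d), 2 ≤ ZZ N → 0 ≤ E →
  (∀ T : ℕ, ZZ N ≤ T → T ≤ N → ‖pc d ψ T‖ ≤ E * T) → ∀ y : ℕ, y ≤ N →
    ‖∑ n ∈ Icc 1 y, GG N n * ψ (n : ZMod d)‖ ≤ Real.log N * (1 + 2 * E * N * (1 + Real.log N))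

end Pool.Agent.P8H14.GH
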