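import Pool.Agent.R460.GR.Conv
import Pool.Agent.P8H14.GH.Stm

set_option autoImplicit false

/-! Project GH: the packages DRM and MSC; see `GH/Stm.lean`. -/

open Finset Filter Topology

namespace Pool.Agent.P8H14.GH

open Pool.Agent.TH823.PS
open Pool.Agent.P8H13.PK
open Pool.Agent.P8H13.GK
open Pool.Agent.P8H14.PL
open Pool.Agent.P8H14.QP (sav)
open Pool.Agent.R460.GS (GG ZZ WinL)
open Pool.Agent.R460.GR (BadP)

/-- **DRM** (a modified copy of three files, 20 minutes at most). `Pool.Agent.R460.GR.class_few_reg` (file `GR/Conv.lean`) with the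
additional information where the exceptional integers `d ∈ D` come from. In the proof of `errR` (`GR/D7.lean`) the set is
`D2 N (U₂ + C + 4) K C (ρ / 2)` (`GR/D6.lean`), and `U₂`, `C` depend on `A`, `ρ` only: every `d ∈ D2 N U K C ρ` is
`e / gcd e (j + 1)` with `e ∈ D1 N U K ρ` (a conductor of a character with `BadP N U ρ e ψ`) and `j + 1 ≤ log ^ C N`, so
`e ≤ d log ^ C N` (as in the proof of `D2_large`). Carry the additional conjunct through copies of `errR` (`D7.lean`),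
`gr_main` (`D8.lean`; it only hands on `D`), `gr_all` (`D9.lean`) and `class_few_reg` (`Conv.lean`; `N = ⌊x⌋₊`). -/
def S_DRM : Prop := ∀ (Q : ℕ → Prop) (W : ℕ), (∃ n₀ : ℕ, ∀ n : ℕ, n₀ ≤ n → 2 ∣ n → WinL W n → Q n) →
  ∀ ρ : ℝ, 0 < ρ → ∀ A : ℕ, ∃ (c U C : ℕ) (ρ' : ℝ), 0 < ρ' ∧ ∀ A₀ : ℕ, ∃ x₀ : ℝ, ∀ x : ℝ, x₀ ≤ x →
    ∃ D : Finset ℕ, (D.card : ℝ) ≤ Real.log x ^ c ∧
      (∀ d ∈ D, Real.log x ^ A₀ < (d : ℝ) ∧
        ∃ (e : ℕ) (ψ : DirichletCharacter ℂ e), BadP ⌊x⌋₊ U ρ' e ψ ∧ (e : ℝ) ≤ d * Real.log x ^ C) ∧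
      ∀ q : ℕ, 1 ≤ q → (q : ℝ) ≤ x ^ (7 / 10 - ρ) → (∀ d ∈ D, ¬ d ∣ q) → ∀ a : ℤ,
        ({n : ℕ | 0 < n ∧ (n : ℝ) ≤ x ∧ 2 ∣ n ∧ (n : ℤ) ≡ a [ZMOD q] ∧ ¬ Q n}).Finite ∧
        (({n : ℕ | 0 < n ∧ (n : ℝ) ≤ x ∧ 2 ∣ n ∧ (n : ℤ) ≡ a [ZMOD q] ∧ ¬ Q n}.ncard : ℕ) : ℝ) ≤
          x / (q * Real.log x ^ A)

/-- **MSC** (120 lines; theorem `msc : S_THC → S_ABL → S_RGC → S_MSC`). At most scales the bad conductors are larger than
`y = sav c' N = N ^ (c' / log log N)`. Proof: as `Pool.Agent.P8H14.GQ.most_GA` (file `GQ/A1.lean`; same way of using `most_LS`).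
Take `c, C` from `most_LS`, `c1, l1` from `S_THC (U + 8) c C`, and apply `hmost` of `most_LS` with `min (c1 / 8) (1 / 1600)` and
`ε / 2`: at most scales `N` there is `l` with `Reg c C (12 l)`, `l log log N ≤ min (c1 / 8) (1 / 1600) · log N`, `log N ≤ 18 l²`,
`c' log N / log log N ≤ l` (the structure `LS`). Let `1 < e ≤ sav c3 N ≤ exp l` and `ψ` primitive modulo `e`. For `T` with
`ZZ N ≤ T ≤ N` and `T' ≥ T / log ^ (U + 8) T`, `T' ≤ T + 1`: `log N / 5 ≤ log T'` for large `N`, so the hypotheses of `S_THC` hold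
for `T'` (`log T' ≤ log N + 1 ≤ 36 l²`), `S_ABL (U + 6)` gives `‖pc e ψ T‖ ≤ T / log ^ (U + 6) T ≤ T (5 / log N) ^ (U + 6)
≤ T / log ^ (U + 4) N` for large `N`, and `S_RGC` with `E = 1 / log ^ (U + 4) N` shows that the sums are at most
`log N (1 + 2 N (1 + log N) / log ^ (U + 4) N) ≤ N / log ^ U N`, so `ψ` is not bad. -/
def S_MSC : Prop := ∀ (U : ℕ) (ρ ε : ℝ), 0 < ρ → 0 < ε → ∃ c' : ℝ, 0 < c' ∧ ∀ N₁ : ℕ,
  Most ε (fun N => N₁ ≤ N ∧ ∀ (e : ℕ) (ψ : DirichletCharacter ℂ e), BadP N U ρ e ψ → sav c' N < (e : ℝ))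

end Pool.Agent.P8H14.GH
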