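import Pool.Agent.P8H14.GH.Drm
import Pool.Agent.P8H14.GH.Stm2

set_option autoImplicit false

/-! Project GH: the package DRM. -/

namespace Pool.Agent.P8H14.GH

theorem drm : S_DRM := by
  intro Q W hQ ρ hρ A
  obtain ⟨c, U, C, h⟩ := class_few_reg2 Q W hQ ρ hρ A
  exact ⟨c, U, C, ρ / 2 / 2, by positivity, h⟩

end Pool.Agent.P8H14.GH
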