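import Pool.Agent.P8H14.GH.RR
import Pool.Agent.P8H54.GH.Thc
import Pool.Agent.P8H52.GH.Rgc
import Pool.Agent.P8H73.GH.Msc

set_option autoImplicit false

/-! Project GH: the theorem. -/

namespace Pool.Agent.P8H14.GH

theorem main (Q : ℕ → Prop) (W : ℕ) (hQ : ∃ n₀ : ℕ, ∀ n : ℕ, n₀ ≤ n → 2 ∣ n → Pool.Agent.R460.GS.WinL W n → Q n)
    (ρ ε : ℝ) (hρ : 0 < ρ) (hε : 0 < ε) (A : ℕ) :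
    ∃ (c : ℕ) (c' : ℝ), 0 < c' ∧ ∀ N₁ : ℕ, Pool.Agent.TH823.PS.Most ε (fun N => N₁ ≤ N ∧ ∀ x : ℝ, (N : ℝ) ≤ x →
      x < N + 1 → ∃ D : Finset ℕ, (D.card : ℝ) ≤ Real.log x ^ c ∧
        (∀ d ∈ D, Pool.Agent.P8H14.QP.sav (2 * c') N < (d : ℝ)) ∧
        ∀ q : ℕ, 1 ≤ q → (q : ℝ) ≤ x ^ (7 / 10 - ρ) → (∀ d ∈ D, ¬ d ∣ q) → ∀ a : ℤ, ClassOK Q A x q a) :=
  core drm (Pool.Agent.P8H73.GH.msc Pool.Agent.P8H54.GH.thc Pool.Agent.P8H52.GH.abl Pool.Agent.P8H52.GH.rgc) Q W hQ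
    ρ ε hρ hε A

end Pool.Agent.P8H14.GH
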