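import Pool.Agent.P8H14.GH.Core
import Pool.Agent.P8H14.GH.DrmS

set_option autoImplicit false

/-! Project GH: a power of `N` is larger than the saving. -/

open Finset Filter Topology

namespace Pool.Agent.P8H14.GH

open Pool.Agent.P8H14.QP (sav)

/-- the saving is smaller than every power -/
lemma sav_le_rpow (c : ℝ) {ρ : ℝ} (hρ : 0 < ρ) : ∃ N₀ : ℕ, ∀ N : ℕ, N₀ ≤ N → sav c N ≤ (N : ℝ) ^ ρ := by
  have h1 : Tendsto (fun N : ℕ => Real.log (Real.log (N : ℝ))) atTop atTop :=
    Real.tendsto_log_atTop.comp (Real.tendsto_log_atTop.comp tendsto_natCast_atTop_atTop)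
  obtain ⟨N₀, hN₀⟩ := eventually_atTop.1 (h1.eventually_ge_atTop (|c| / ρ + 1))
  refine ⟨max N₀ 16, fun N hN => ?_⟩
  have h2 := hN₀ N ((le_max_left _ _).trans hN)
  have hN16 : 16 ≤ N := (le_max_right _ _).trans hN
  have hN0 : (0 : ℝ) < N := by exact_mod_cast (by omega : 0 < N)
  have hL : 0 ≤ Real.log N := Real.log_nonneg (by exact_mod_cast (by omega : 1 ≤ N))
  have hl0 : 0 < Real.log (Real.log (N : ℝ)) := by
    have : 0 ≤ |c| / ρ := by positivity
    linarith
  unfold sav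
  rw [Real.rpow_def_of_pos hN0]
  apply Real.exp_le_exp.2
  rw [div_le_iff₀ hl0]
  have h3 : |c| ≤ ρ * Real.log (Real.log (N : ℝ)) := by
    have h4 : |c| / ρ ≤ Real.log (Real.log (N : ℝ)) := by linarith
    rw [div_le_iff₀ hρ] at h4
    linarith
  have h5 : c ≤ ρ * Real.log (Real.log (N : ℝ)) := (le_abs_self c).trans h3
  calc c * Real.log N ≤ (ρ * Real.log (Real.log (N : ℝ))) * Real.log N := mul_le_mul_of_nonneg_right h5 hL
    _ = Real.log N * ρ * Real.log (Real.log N) := by ring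

end Pool.Agent.P8H14.GH
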